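import Pool.Agent.N798.T.Stm
import Pool.Agent.Y957.VK.Fin1

/-!
# T/WO: the constant weight

By helper765.
-/

set_option autoImplicit false

namespace Pool.Agent.N765.T

open Finset MeasureTheory Filter Topology
open Pool.Agent.H376R2.MR (er)
open Pool.Agent.N798.T
open Pool.Agent.Y957.VK (S_ZS)

lemma norm_er (τ x : ℝ) : ‖er τ x‖ = 1 := by
  unfold er
  exact Complex.norm_exp_ofReal_mul_I _

lemma er_zero (τ : ℝ) : er τ 0 = 1 := by
  unfold er
  simp

lemma er_sub_one (τ x : ℝ) : ‖er τ x - 1‖ ≤ |τ| * |x| := by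
  unfold er
  rw [← abs_mul]
  have := Real.norm_exp_I_mul_ofReal_sub_one_le (x := τ * x)
  rwa [mul_comm, Real.norm_eq_abs] at this

lemma er_mul (τ x y : ℝ) : er τ (x + y) = er τ x * er τ y := by
  unfold er
  rw [← Complex.exp_add]
  congr 1
  push_cast
  ring

lemma er_sub (τ x y : ℝ) : ‖er τ x - er τ y‖ ≤ |τ| * |x - y| := by
  have h : er τ x = er τ y * er τ (x - y) := by
    rw [← er_mul]
    congr 1
    ring
  rw [h]
  have h2 : er τ y * er τ (x - y) - er τ y = er τ y * (er τ (x - y) - 1) := by ring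
  rw [h2, norm_mul, norm_er, one_mul]
  exact er_sub_one τ (x - y)

/-- the primitive -/
noncomputable def G (τ u : ℝ) : ℂ := u * er τ (Real.log u) / (1 + τ * Complex.I)

lemma one_add_ne (τ : ℝ) : (1 + τ * Complex.I : ℂ) ≠ 0 := by
  intro h
  have := congrArg Complex.re h
  simp at this

lemma abs_le_norm (τ : ℝ) : |τ| ≤ ‖(1 + τ * Complex.I : ℂ)‖ := by
  have h := Complex.abs_im_le_norm (1 + τ * Complex.I : ℂ)
  simpa using h

lemma hasDerivAt_er (τ : ℝ) {u : ℝ} (hu : 0 < u) :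
    HasDerivAt (fun u : ℝ => er τ (Real.log u)) (er τ (Real.log u) * (τ / u * Complex.I)) u := by
  have h1 : HasDerivAt (fun u : ℝ => ((τ * Real.log u : ℝ) : ℂ)) ((τ * u⁻¹ : ℝ) : ℂ) u :=
    ((Real.hasDerivAt_log hu.ne').const_mul τ).ofReal_comp
  have h2 := (h1.mul_const Complex.I).cexp
  refine h2.congr_deriv ?_
  unfold er
  push_cast
  rw [div_eq_mul_inv]

lemma hasDerivAt_G (τ : ℝ) {u : ℝ} (hu : 0 < u) : HasDerivAt (G τ) (er τ (Real.log u)) u := by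
  have h1 : HasDerivAt (fun u : ℝ => (u : ℂ)) 1 u := (hasDerivAt_id u).ofReal_comp
  have h2 := (h1.mul (hasDerivAt_er τ hu)).div_const (1 + τ * Complex.I)
  refine h2.congr_deriv ?_
  have hu' : (u : ℂ) ≠ 0 := by exact_mod_cast hu.ne'
  have := one_add_ne τ
  field_simp

/-- one step -/
lemma step (τ : ℝ) {N n : ℕ} (hN : 1 ≤ N) (hn : N ≤ n) :
    ‖er τ (Real.log ((n + 1 : ℕ) : ℝ)) - (G τ ((n + 1 : ℕ) : ℝ) - G τ (n : ℝ))‖ ≤ |τ| / N := by
  have hN0 : (0 : ℝ) < N := by exact_mod_cast hN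
  have hn0 : (0 : ℝ) < n := hN0.trans_le (by exact_mod_cast hn)
  have key : ∀ u ∈ Set.Icc (n : ℝ) ((n + 1 : ℕ) : ℝ), HasDerivWithinAt
      (fun u : ℝ => (u : ℂ) * er τ (Real.log ((n + 1 : ℕ) : ℝ)) - G τ u)
      (er τ (Real.log ((n + 1 : ℕ) : ℝ)) - er τ (Real.log u)) (Set.Icc (n : ℝ) ((n + 1 : ℕ) : ℝ)) u := by
    intro u hu
    have hu0 : 0 < u := hn0.trans_le hu.1
    have h1 : HasDerivAt (fun u : ℝ => (u : ℂ)) 1 u := (hasDerivAt_id u).ofReal_comp
    have h2 := (h1.mul_const (er τ (Real.log ((n + 1 : ℕ) : ℝ)))).sub (hasDerivAt_G τ hu0)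
    rw [one_mul] at h2
    exact h2.hasDerivWithinAt
  have h2 := norm_image_sub_le_of_norm_deriv_le_segment' key (C := |τ| / N) (by
    intro u hu
    have hu0 : 0 < u := hn0.trans_le hu.1
    refine (er_sub τ _ _).trans ?_
    rw [div_eq_mul_inv]
    refine mul_le_mul_of_nonneg_left ?_ (abs_nonneg _)
    have h3 : Real.log u ≤ Real.log ((n + 1 : ℕ) : ℝ) := Real.log_le_log hu0 hu.2.le
    rw [abs_of_nonneg (by linarith), ← Real.log_div (by positivity) hu0.ne']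
    refine (Real.log_le_sub_one_of_pos (by positivity)).trans ?_
    rw [div_sub_one hu0.ne', div_le_iff₀ hu0]
    have h4 : (n : ℝ) ≤ u := hu.1
    have h5 : (N : ℝ) ≤ n := by exact_mod_cast hn
    have h6 : (1 : ℝ) ≤ (N : ℝ)⁻¹ * u := by
      rw [← inv_mul_cancel₀ hN0.ne']
      exact mul_le_mul_of_nonneg_left (h5.trans h4) (by positivity)
    push_cast
    linarith) _ (Set.right_mem_Icc.2 (by push_cast; linarith))
  have h3 : (((n + 1 : ℕ) : ℝ) : ℂ) * er τ (Real.log ((n + 1 : ℕ) : ℝ)) - G τ ((n + 1 : ℕ) : ℝ) -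
      (((n : ℝ) : ℂ) * er τ (Real.log ((n + 1 : ℕ) : ℝ)) - G τ (n : ℝ)) =
      er τ (Real.log ((n + 1 : ℕ) : ℝ)) - (G τ ((n + 1 : ℕ) : ℝ) - G τ (n : ℝ)) := by
    push_cast
    ring
  rw [h3] at h2
  refine h2.trans (le_of_eq ?_)
  push_cast
  ring

lemma sum_G (τ : ℝ) {N : ℕ} (hN : 1 ≤ N) {N' : ℕ} (h : N ≤ N') :
    ‖∑ n ∈ Ioc N N', er τ (Real.log (n : ℝ)) - (G τ (N' : ℝ) - G τ (N : ℝ))‖ ≤
      ((N' : ℝ) - N) * (|τ| / N) := by
  induction N', h using Nat.le_induction with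
  | base => simp
  | succ n hn ih =>
    rw [← Finset.insert_Ioc_right_eq_Ioc_add_one hn, sum_insert (by simp)]
    have h1 := step τ hN hn
    have h2 : er τ (Real.log ((n + 1 : ℕ) : ℝ)) + ∑ n ∈ Ioc N n, er τ (Real.log (n : ℝ)) -
        (G τ ((n + 1 : ℕ) : ℝ) - G τ (N : ℝ)) =
        (er τ (Real.log ((n + 1 : ℕ) : ℝ)) - (G τ ((n + 1 : ℕ) : ℝ) - G τ (n : ℝ))) +
        (∑ n ∈ Ioc N n, er τ (Real.log (n : ℝ)) - (G τ (n : ℝ) - G τ (N : ℝ))) := by ring
    rw [h2]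
    refine (norm_add_le _ _).trans ((add_le_add h1 ih).trans (le_of_eq ?_))
    push_cast
    ring

lemma norm_G (τ : ℝ) (hτ : 0 < |τ|) (N : ℕ) : ‖G τ (N : ℝ)‖ ≤ N / |τ| := by
  unfold G
  rw [norm_div, norm_mul, norm_er, mul_one, Complex.norm_real, Real.norm_natCast]
  exact div_le_div_of_nonneg_left (Nat.cast_nonneg _) hτ (abs_le_norm τ)

/-- small frequencies -/
lemma small (τ : ℝ) (hτ : 0 < |τ|) {N N' : ℕ} (hN : 1 ≤ N) (h : N ≤ N') (h' : N' ≤ 2 * N) :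
    ‖∑ n ∈ Ioc N N', er τ (Real.log (n : ℝ))‖ ≤ |τ| + 3 * N / |τ| := by
  have hN0 : (0 : ℝ) < N := by exact_mod_cast hN
  have h2 : (N' : ℝ) ≤ 2 * N := by exact_mod_cast h'
  have h1 := sum_G τ hN h
  have h3 : ((N' : ℝ) - N) * (|τ| / N) ≤ |τ| := by
    calc ((N' : ℝ) - N) * (|τ| / N) ≤ N * (|τ| / N) :=
          mul_le_mul_of_nonneg_right (by linarith) (by positivity)
      _ = |τ| := by field_simp
  have h4 : ‖G τ (N' : ℝ) - G τ (N : ℝ)‖ ≤ 3 * N / |τ| := by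
    refine (norm_sub_le _ _).trans ((add_le_add (norm_G τ hτ N') (norm_G τ hτ N)).trans ?_)
    rw [← add_div]
    exact div_le_div_of_nonneg_right (by linarith) hτ.le
  calc ‖∑ n ∈ Ioc N N', er τ (Real.log (n : ℝ))‖ =
      ‖(∑ n ∈ Ioc N N', er τ (Real.log (n : ℝ)) - (G τ (N' : ℝ) - G τ (N : ℝ))) +
        (G τ (N' : ℝ) - G τ (N : ℝ))‖ := by rw [sub_add_cancel]
    _ ≤ _ := (norm_add_le _ _).trans (add_le_add (h1.trans h3) h4)

/-- powers of the logarithm -/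
lemma log_pow_le (K : ℕ) {ε : ℝ} (hε : 0 < ε) : ∃ C : ℝ, 0 < C ∧ ∀ N : ℕ, 1 ≤ N →
    (Real.log N) ^ K ≤ C * (N : ℝ) ^ ε := by
  refine ⟨((K + 1) / ε) ^ K, by positivity, fun N hN => ?_⟩
  have hN1 : (1 : ℝ) ≤ N := by exact_mod_cast hN
  have hδ : 0 < ε / (K + 1) := by positivity
  have h1 := Real.log_le_rpow_div (by positivity : (0 : ℝ) ≤ N) hδ
  have h2 : (Real.log N) ^ K ≤ ((N : ℝ) ^ (ε / (K + 1)) / (ε / (K + 1))) ^ K :=
    pow_le_pow_left₀ (Real.log_nonneg hN1) h1 K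
  refine h2.trans ?_
  rw [div_pow, ← Real.rpow_natCast, ← Real.rpow_mul (by positivity), div_eq_mul_inv, mul_comm]
  have h3 : (((ε / (K + 1)) ^ K)⁻¹ : ℝ) = ((K + 1) / ε) ^ K := by
    rw [← inv_pow, inv_div]
  rw [h3]
  refine mul_le_mul_of_nonneg_left ?_ (by positivity)
  apply Real.rpow_le_rpow_of_exponent_le hN1
  rw [div_mul_eq_mul_div, div_le_iff₀ (by positivity)]
  nlinarith

lemma er_eq_cpow (τ : ℝ) {n : ℕ} (hn : n ≠ 0) :
    er τ (Real.log (n : ℝ)) = (n : ℂ) ^ (-((-τ : ℝ) : ℂ) * Complex.I) := by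
  unfold er
  have hn' : (n : ℂ) ≠ 0 := by exact_mod_cast hn
  rw [Complex.cpow_def_of_ne_zero hn', ← Complex.natCast_log]
  congr 1
  push_cast
  ring

/-- T/WO, from the bound for zeta sums -/
theorem wo_of (hzs : S_ZS) : S_WO where
  le_one := fun n => by simp
  tw := by
    intro A K
    obtain ⟨C, c, hc, hc', hz⟩ := hzs
    obtain ⟨C1, hC1, h1⟩ := log_pow_le K (ε := 1 / 2) (by norm_num)
    obtain ⟨C2, hC2, h2⟩ := log_pow_le K (ε := c / (1 + A) ^ 2) (by positivity)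
    refine ⟨K, C1 + 3 + Real.exp (C * (1 + (A : ℝ)) ^ C) * C2, ?_⟩
    intro N N' τ hN hNN' hN' hτ hτ'
    have hN1 : (1 : ℝ) < N := by exact_mod_cast hN
    have hN0 : (0 : ℝ) < N := by linarith
    have hlog : 0 < Real.log N := Real.log_pos hN1
    have hlK : 0 < (Real.log N) ^ K := pow_pos hlog K
    have hτ0 : 0 < |τ| := hlK.trans_le hτ
    simp only [one_mul]
    rcases le_total |τ| ((N : ℝ) ^ (1 / 2 : ℝ)) with h3 | h3
    · refine (small τ hτ0 (by omega) hNN' hN').trans ?_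
      have h4 : |τ| ≤ C1 * N / (Real.log N) ^ K := by
        refine h3.trans ?_
        rw [le_div_iff₀ hlK]
        calc (N : ℝ) ^ (1 / 2 : ℝ) * (Real.log N) ^ K ≤ (N : ℝ) ^ (1 / 2 : ℝ) *
              (C1 * (N : ℝ) ^ (1 / 2 : ℝ)) :=
              mul_le_mul_of_nonneg_left (h1 N (by omega)) (by positivity)
          _ = C1 * ((N : ℝ) ^ (1 / 2 : ℝ) * (N : ℝ) ^ (1 / 2 : ℝ)) := by ring
          _ = C1 * N := by rw [← Real.rpow_add hN0]; norm_num
      have h5 : 3 * (N : ℝ) / |τ| ≤ 3 * N / (Real.log N) ^ K :=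
        div_le_div_of_nonneg_left (by positivity) hlK hτ
      have h6 : 0 ≤ Real.exp (C * (1 + (A : ℝ)) ^ C) * C2 * N / (Real.log N) ^ K := by positivity
      have h7 : (C1 + 3 + Real.exp (C * (1 + (A : ℝ)) ^ C) * C2) * N / (Real.log N) ^ K =
          C1 * N / (Real.log N) ^ K + 3 * N / (Real.log N) ^ K +
            Real.exp (C * (1 + (A : ℝ)) ^ C) * C2 * N / (Real.log N) ^ K := by ring
      rw [h7]
      linarith
    · set κ := Real.log |τ| / Real.log N with hκ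
      have hκ1 : 1 / 2 ≤ κ := by
        rw [hκ, le_div_iff₀ hlog, ← Real.log_rpow hN0]
        exact Real.log_le_log (by positivity) h3
      have hκ2 : κ ≤ A := by
        rw [hκ, div_le_iff₀ hlog, ← Real.log_pow]
        exact Real.log_le_log hτ0 hτ'
      have hκ3 : |(-τ)| = (N : ℝ) ^ κ := by
        rw [abs_neg, Real.rpow_def_of_pos hN0, hκ, mul_div_cancel₀ _ hlog.ne', Real.exp_log hτ0]
      have h4 := hz N N' (-τ) κ hN hNN' hN' hκ1 hκ3
      have h5 : ∑ n ∈ Ioc N N', er τ (Real.log (n : ℝ)) =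
          ∑ n ∈ Ioc N N', (n : ℂ) ^ (-((-τ : ℝ) : ℂ) * Complex.I) :=
        sum_congr rfl fun n hn => er_eq_cpow τ (by
          have := (mem_Ioc.1 hn).1
          omega)
      rw [h5]
      refine h4.trans ?_
      have hκ0 : 0 ≤ κ := by linarith
      have h6 : Real.exp (C * (1 + κ) ^ C) ≤ Real.exp (C * (1 + (A : ℝ)) ^ C) := by
        apply Real.exp_le_exp.2
        refine mul_le_mul_of_nonneg_left ?_ (Nat.cast_nonneg _)
        exact pow_le_pow_left₀ (by linarith) (by linarith) _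
      have h7 : (N : ℝ) ^ (1 - c / (1 + κ) ^ 2 : ℝ) ≤ (N : ℝ) ^ (1 - c / (1 + A) ^ 2 : ℝ) := by
        apply Real.rpow_le_rpow_of_exponent_le hN1.le
        have : c / (1 + (A : ℝ)) ^ 2 ≤ c / (1 + κ) ^ 2 :=
          div_le_div_of_nonneg_left hc.le (by positivity)
            (pow_le_pow_left₀ (by linarith) (by linarith) _)
        linarith
      have h8 : (N : ℝ) ^ (1 - c / (1 + A) ^ 2 : ℝ) ≤ C2 * N / (Real.log N) ^ K := by
        rw [le_div_iff₀ hlK]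
        calc (N : ℝ) ^ (1 - c / (1 + A) ^ 2 : ℝ) * (Real.log N) ^ K ≤
            (N : ℝ) ^ (1 - c / (1 + A) ^ 2 : ℝ) * (C2 * (N : ℝ) ^ (c / (1 + A) ^ 2 : ℝ)) :=
              mul_le_mul_of_nonneg_left (h2 N (by omega)) (by positivity)
          _ = C2 * ((N : ℝ) ^ (1 - c / (1 + A) ^ 2 : ℝ) * (N : ℝ) ^ (c / (1 + A) ^ 2 : ℝ)) := by
              ring
          _ = C2 * N := by
              rw [← Real.rpow_add hN0]
              norm_num
      have h9 : Real.exp (C * (1 + κ) ^ C) * (N : ℝ) ^ (1 - c / (1 + κ) ^ 2 : ℝ) ≤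
          Real.exp (C * (1 + (A : ℝ)) ^ C) * (C2 * N / (Real.log N) ^ K) :=
        mul_le_mul h6 (h7.trans h8) (by positivity) (by positivity)
      have h10 : (C1 + 3 + Real.exp (C * (1 + (A : ℝ)) ^ C) * C2) * N / (Real.log N) ^ K =
          C1 * N / (Real.log N) ^ K + 3 * N / (Real.log N) ^ K +
            Real.exp (C * (1 + (A : ℝ)) ^ C) * (C2 * N / (Real.log N) ^ K) := by ring
      rw [h10]
      have h11 : 0 ≤ C1 * N / (Real.log N) ^ K := by positivity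
      have h12 : 0 ≤ 3 * (N : ℝ) / (Real.log N) ^ K := by positivity
      linarith
  mn := by
    intro K
    refine ⟨0, fun N N' hN hNN' hN' => ?_⟩
    have h1 : (∫ u in (N : ℝ)..N', 1 / (Real.log u) ^ 0 : ℝ) = (N' : ℝ) - N := by simp
    rw [h1]
    simp only [sum_const, Nat.card_Ioc, nsmul_eq_mul, mul_one]
    rw [Nat.cast_sub hNN']
    push_cast
    simp

/-- T/WO -/
theorem wo : S_WO := wo_of Pool.Agent.Y957.VK.zs_all

end Pool.Agent.N765.T
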